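import Mathlib

namespace Pool.Agent.Results.MP_dc78ae_al.CommEq

open Filter

/-- `℘ w`: the `i`-th coordinate counts the letters `a_i^{±1}` of the reduced word of `w`. -/
def parikh {m : ℕ} (w : FreeGroup (Fin m)) : Fin m → ℝ :=
  fun i => ((w.toWord.countP fun l => decide (l.1 = i) : ℕ) : ℝ)

/-- An open cone of `ℝ^m`: an open set closed under positive scalars. -/
def IsOpenCone {m : ℕ} (C : Set (Fin m → ℝ)) : Prop :=
  IsOpen C ∧ ∀ t : ℝ, 0 < t → ∀ x ∈ C, t • x ∈ C

/-- `ν_H ({x : R ≤ ‖x‖₁ < R + 1} ∩ C)`: the number of `w ∈ H` with `℘ w` in that set. -/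
noncomputable def cnt {m : ℕ} (H : Subgroup (FreeGroup (Fin m))) (C : Set (Fin m → ℝ))
    (R : ℝ) : ℕ :=
  Set.ncard {w : FreeGroup (Fin m) | w ∈ H ∧ R ≤ ∑ i, |parikh w i| ∧
    ∑ i, |parikh w i| < R + 1 ∧ parikh w ∈ C}

/-- `τ_{H,C}`, with `log 0 = -∞`. -/
noncomputable def tau {m : ℕ} (H : Subgroup (FreeGroup (Fin m))) (C : Set (Fin m → ℝ)) : EReal :=
  limsup (fun R : ℝ => ((1 / R : ℝ) : EReal) * ENNReal.log (cnt H C R : ENNReal)) atTop

/-- `ψ_H (r)`: the infimum of `τ_{H,C}` over the open cones `C` containing `r`. -/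
noncomputable def psi {m : ℕ} (H : Subgroup (FreeGroup (Fin m))) (r : Fin m → ℝ) : EReal :=
  ⨅ C ∈ {C : Set (Fin m → ℝ) | IsOpenCone C ∧ r ∈ C}, tau H C

lemma sum_countP {m : ℕ} (L : List (Fin m × Bool)) :
    ∑ i, (L.countP fun l => decide (l.1 = i)) = L.length := by
  induction L with
  | nil => simp
  | cons a L ih =>
    simp only [List.countP_cons, Finset.sum_add_distrib, ih, List.length_cons]
    simp

lemma sum_par {m : ℕ} (w : FreeGroup (Fin m)) :
    ∑ i, |parikh w i| = (w.toWord.length : ℝ) := by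
  rw [← sum_countP w.toWord]
  push_cast
  refine Finset.sum_congr rfl fun i _ => ?_
  unfold parikh
  exact abs_of_nonneg (Nat.cast_nonneg _)

lemma fin_len {m : ℕ} (n : ℕ) : {w : FreeGroup (Fin m) | w.toWord.length ≤ n}.Finite := by
  have h := List.finite_length_le (Fin m × Bool) n
  exact h.preimage (FreeGroup.toWord_injective.injOn)

lemma fin_set {m : ℕ} (H : Subgroup (FreeGroup (Fin m))) (C : Set (Fin m → ℝ)) (R : ℝ) :
    {w : FreeGroup (Fin m) | w ∈ H ∧ R ≤ ∑ i, |parikh w i| ∧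
      ∑ i, |parikh w i| < R + 1 ∧ parikh w ∈ C}.Finite := by
  refine (fin_len ⌈R + 1⌉₊).subset fun w hw => ?_
  have h := hw.2.2.1
  rw [sum_par] at h
  have h2 := Nat.le_ceil (R + 1)
  show w.toWord.length ≤ _
  exact_mod_cast (h.le.trans h2)

lemma cnt_mono {m : ℕ} (H : Subgroup (FreeGroup (Fin m))) (C : Set (Fin m → ℝ)) (R : ℝ) :
    cnt H C R ≤ cnt ⊤ C R :=
  Set.ncard_le_ncard (fun _ hw => ⟨trivial, hw.2⟩) (fin_set ⊤ C R)

lemma tau_mono {m : ℕ} (H : Subgroup (FreeGroup (Fin m))) (C : Set (Fin m → ℝ)) :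
    tau H C ≤ tau ⊤ C := by
  unfold tau
  refine limsup_le_limsup ?_
  filter_upwards [eventually_gt_atTop (0 : ℝ)] with R hR
  refine mul_le_mul_of_nonneg_left ?_ ?_
  · exact ENNReal.log_monotone (by exact_mod_cast cnt_mono H C R)
  · exact_mod_cast (one_div_pos.2 hR).le

lemma ab_eq {m : ℕ} (u v : FreeGroup (Fin m)) (h : u.toWord.Perm v.toWord) :
    Abelianization.of u = Abelianization.of v := by
  have key : ∀ w : FreeGroup (Fin m), Abelianization.of w =
      FreeGroup.lift (fun a => Abelianization.of (FreeGroup.of a)) w := fun w =>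
    FreeGroup.lift_unique Abelianization.of (fun _ => rfl)
  rw [key u, key v, ← FreeGroup.mk_toWord (x := u), ← FreeGroup.mk_toWord (x := v),
    FreeGroup.lift_mk, FreeGroup.lift_mk]
  exact (h.map _).prod_eq

lemma exists_letter {m : ℕ} (hm : 2 ≤ m) (a b c : Fin m × Bool) :
    ∃ x : Fin m × Bool, x ≠ a ∧ x ≠ b ∧ x ≠ c := by
  by_contra hc
  push Not at hc
  have hsub : (Finset.univ : Finset (Fin m × Bool)) ⊆ {a, b, c} := by
    intro x _
    by_cases h1 : x = a
    · simp [h1]
    · by_cases h2 : x = b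
      · simp [h2]
      · simp [hc x h1 h2]
  have h1 := Finset.card_le_card hsub
  have h2 : ({a, b, c} : Finset (Fin m × Bool)).card ≤ 3 := Finset.card_le_three
  simp at h1
  omega

lemma red_invRev {m : ℕ} (v : FreeGroup (Fin m)) :
    FreeGroup.IsReduced (FreeGroup.invRev v.toWord) := by
  rw [← FreeGroup.toWord_inv]; exact FreeGroup.isReduced_toWord

lemma exists_sep {m : ℕ} (hm : 2 ≤ m) (u v : FreeGroup (Fin m)) (hv : v.toWord ≠ []) :
    ∃ x : Fin m × Bool, FreeGroup.IsReduced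
      (u.toWord ++ x :: (FreeGroup.invRev v.toWord ++ [(x.1, !x.2)])) := by
  have d : Fin m × Bool := (⟨0, by omega⟩, true)
  set U := u.toWord
  set V := FreeGroup.invRev v.toWord
  have hU : FreeGroup.IsReduced U := FreeGroup.isReduced_toWord
  have hV : FreeGroup.IsReduced V := red_invRev v
  obtain ⟨x, h1, h2, h3⟩ := exists_letter hm
    ((U.getLast?.getD d).1, !(U.getLast?.getD d).2)
    ((V.head?.getD d).1, !(V.head?.getD d).2) (V.getLast?.getD d)
  have hV0 : V ≠ [] := by
    intro h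
    apply hv
    have := congrArg List.length h
    simpa [V] using this
  refine ⟨x, ?_⟩
  unfold FreeGroup.IsReduced at *
  rw [List.isChain_append]
  refine ⟨hU, ?_, ?_⟩
  · rw [List.isChain_cons]
    refine ⟨?_, ?_⟩
    · intro y hy
      rw [List.head?_append_of_ne_nil _ hV0] at hy
      have : V.head? = some y := hy
      rw [this] at h2
      intro e
      by_contra hne
      apply h2
      refine Prod.ext ?_ ?_
      · simpa using e
      · simp only [Option.getD_some]
        revert hne; cases x.2 <;> cases y.2 <;> simp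
    · rw [List.isChain_append]
      refine ⟨hV, by simp, ?_⟩
      intro a ha b hb
      have ha' : V.getLast? = some a := ha
      have hb' : b = (x.1, !x.2) := by simpa using (show _ = _ from hb).symm
      rw [ha'] at h3
      subst hb'
      intro e
      by_contra hne
      apply h3
      refine Prod.ext ?_ ?_
      · simpa using e.symm
      · simp only [Option.getD_some]
        revert hne; cases x.2 <;> cases a.2 <;> simp
  · intro a ha b hb
    have ha' : U.getLast? = some a := ha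
    have hb' : b = x := by simpa using (show _ = _ from hb).symm
    rw [ha'] at h1
    subst hb'
    intro e
    by_contra hne
    apply h1
    refine Prod.ext ?_ ?_
    · simpa using e.symm
    · simp only [Option.getD_some]
      revert hne; cases b.2 <;> cases a.2 <;> simp

lemma countP_invRev {m : ℕ} (L : List (Fin m × Bool)) (i : Fin m) :
    (FreeGroup.invRev L).countP (fun l => decide (l.1 = i)) =
      L.countP (fun l => decide (l.1 = i)) := by
  unfold FreeGroup.invRev
  rw [List.countP_reverse, List.countP_map]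
  rfl

/-- the glued word -/
lemma glue {m : ℕ} (hm : 2 ≤ m) (u v : FreeGroup (Fin m)) (hv : v.toWord ≠ [])
    (h : u.toWord.Perm v.toWord) :
    ∃ w : FreeGroup (Fin m), ∃ x : Fin m × Bool, w ∈ commutator (FreeGroup (Fin m)) ∧
      w.toWord = u.toWord ++ x :: (FreeGroup.invRev v.toWord ++ [(x.1, !x.2)]) ∧
      parikh w = (2 : ℝ) • (parikh u + Pi.single x.1 1) := by
  obtain ⟨x, hx⟩ := exists_sep hm u v hv
  have hw : (FreeGroup.mk (u.toWord ++ x :: (FreeGroup.invRev v.toWord ++ [(x.1, !x.2)]))).toWord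
      = u.toWord ++ x :: (FreeGroup.invRev v.toWord ++ [(x.1, !x.2)]) := by
    rw [FreeGroup.toWord_mk, hx.reduce_eq]
  refine ⟨FreeGroup.mk _, x, ?_, hw, ?_⟩
  · have e : FreeGroup.mk (u.toWord ++ x :: (FreeGroup.invRev v.toWord ++ [(x.1, !x.2)])) =
        u * FreeGroup.mk [x] * v⁻¹ * (FreeGroup.mk [x])⁻¹ := by
      conv_rhs => rw [← FreeGroup.mk_toWord (x := u), ← FreeGroup.mk_toWord (x := v)]
      rw [FreeGroup.inv_mk, FreeGroup.inv_mk, FreeGroup.mul_mk, FreeGroup.mul_mk, FreeGroup.mul_mk]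
      simp [FreeGroup.invRev]
    rw [e, ← Abelianization.ker_of, MonoidHom.mem_ker]
    simp only [map_mul, map_inv, ab_eq u v h]
    rw [mul_comm (Abelianization.of v)]
    group
  · funext i
    unfold parikh
    rw [hw]
    simp only [List.countP_append, List.countP_cons, countP_invRev, List.countP_nil,
      ← h.countP_eq, Pi.smul_apply, Pi.add_apply, smul_eq_mul]
    by_cases hi : x.1 = i
    · subst hi; simp; ring
    · simp [hi, Pi.single_eq_of_ne (Ne.symm hi)]; ring

lemma count_bound {m : ℕ} (hm : 2 ≤ m) (C C' : Set (Fin m → ℝ)) (R : ℝ) (hR : 0 < R)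
    (hCC : ∀ (w : FreeGroup (Fin m)) (j : Fin m), w.toWord.length = ⌈R⌉₊ → parikh w ∈ C' →
      (2 : ℝ) • (parikh w + Pi.single j 1) ∈ C) :
    (cnt ⊤ C' R) ^ 2 ≤ ((⌈R⌉₊ + 1) ^ (2 * m)) ^ 2 *
      cnt (commutator (FreeGroup (Fin m))) C (2 * ⌈R⌉₊ + 2) := by
  classical
  set n := ⌈R⌉₊ with hn
  have hn0 : 0 < n := Nat.ceil_pos.2 hR
  set S := (fin_set (⊤ : Subgroup (FreeGroup (Fin m))) C' R).toFinset with hS
  have hcS : cnt ⊤ C' R = S.card := Set.ncard_eq_toFinset_card _ _
  have hSm : ∀ w ∈ S, w.toWord.length = n ∧ parikh w ∈ C' := by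
    intro w hw
    rw [hS, Set.Finite.mem_toFinset] at hw
    obtain ⟨-, h1, h2, h3⟩ := hw
    rw [sum_par] at h1 h2
    refine ⟨?_, h3⟩
    symm
    rw [hn, Nat.ceil_eq_iff]
    · constructor
      · rcases Nat.eq_zero_or_pos w.toWord.length with h0 | h0
        · simp [h0, hR]
        · rw [Nat.cast_sub h0]; push_cast; linarith
      · exact h1
    · intro h0
      rw [h0] at h1
      simp at h1
      linarith
  let key : FreeGroup (Fin m) → (Fin m × Bool → ℕ) := fun w l => w.toWord.count l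
  rcases S.eq_empty_or_nonempty with h0 | hne
  · rw [hcS, h0]; simp
  obtain ⟨c, -, hc⟩ := Finset.exists_max_image (S.image key)
    (fun c => (S.filter fun w => key w = c).card) (hne.image key)
  set F := S.filter fun w => key w = c with hF
  have h1 : S.card ≤ F.card * (S.image key).card := Finset.card_le_mul_card_image S _ hc
  have h2 : (S.image key).card ≤ (n + 1) ^ (2 * m) := by
    have : S.image key ⊆ Fintype.piFinset fun _ => Finset.range (n + 1) := by
      intro k hk
      obtain ⟨w, hw, rfl⟩ := Finset.mem_image.1 hk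
      rw [Fintype.mem_piFinset]
      intro l
      rw [Finset.mem_range, Nat.lt_succ_iff, ← (hSm w hw).1]
      exact List.count_le_length
    refine (Finset.card_le_card this).trans ?_
    simp [Fintype.card_piFinset, mul_comm]
  have h3 : F.card * F.card ≤ cnt (commutator (FreeGroup (Fin m))) C (2 * n + 2) := by
    have hg : ∀ p : FreeGroup (Fin m) × FreeGroup (Fin m), p ∈ F ×ˢ F →
        ∃ w : FreeGroup (Fin m), ∃ x : Fin m × Bool, w ∈ commutator (FreeGroup (Fin m)) ∧
        w.toWord = p.1.toWord ++ x :: (FreeGroup.invRev p.2.toWord ++ [(x.1, !x.2)]) ∧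
        parikh w = (2 : ℝ) • (parikh p.1 + Pi.single x.1 1) := by
      intro p hp
      rw [Finset.mem_product, hF, Finset.mem_filter, Finset.mem_filter] at hp
      refine glue hm p.1 p.2 ?_ ?_
      · intro h
        have := (hSm _ hp.2.1).1
        rw [h] at this
        simp at this
        omega
      · rw [List.perm_iff_count]
        intro l
        exact congrFun (hp.1.2.trans hp.2.2.symm) l
    choose! g hg using hg
    rw [← Finset.card_product, cnt, Set.ncard_eq_toFinset_card _ (fin_set _ _ _)]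
    refine Finset.card_le_card_of_injOn g ?_ ?_
    · intro p hp
      obtain ⟨x, a1, a2, a3⟩ := hg p hp
      have hp' := hp
      rw [Finset.mem_coe, Finset.mem_product, hF, Finset.mem_filter, Finset.mem_filter] at hp'
      have l1 := hSm _ hp'.1.1
      have l2 := hSm _ hp'.2.1
      have hl : (g p).toWord.length = 2 * n + 2 := by
        rw [a2]; simp [l1.1, l2.1]; omega
      rw [Finset.mem_coe, Set.Finite.mem_toFinset]
      refine ⟨a1, ?_, ?_, ?_⟩
      · rw [sum_par, hl]; push_cast; exact le_rfl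
      · rw [sum_par, hl]; push_cast; linarith
      · rw [a3]; exact hCC _ _ l1.1 l1.2
    · intro p hp q hq e
      obtain ⟨x, -, a2, -⟩ := hg p hp
      obtain ⟨y, -, b2, -⟩ := hg q hq
      rw [Finset.mem_coe, Finset.mem_product, hF, Finset.mem_filter, Finset.mem_filter] at hp hq
      have l1 := (hSm _ hp.1.1).1
      have l2 := (hSm _ hq.1.1).1
      have e2 := a2.symm.trans ((congrArg FreeGroup.toWord e).trans b2)
      obtain ⟨e3, e4⟩ := List.append_inj e2 (l1.trans l2.symm)
      obtain ⟨e5, e6⟩ := List.cons.inj e4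
      subst e5
      have e7 := List.append_cancel_right e6
      exact Prod.ext (FreeGroup.toWord_injective e3)
        (FreeGroup.toWord_injective (FreeGroup.invRev_injective e7))
  rw [hcS]
  calc S.card ^ 2 ≤ (F.card * (n + 1) ^ (2 * m)) ^ 2 :=
        Nat.pow_le_pow_left (h1.trans (Nat.mul_le_mul_left _ h2)) 2
    _ = ((n + 1) ^ (2 * m)) ^ 2 * (F.card * F.card) := by ring
    _ ≤ _ := Nat.mul_le_mul_left _ h3

lemma small_cone {m : ℕ} (C : Set (Fin m → ℝ)) (hC : IsOpenCone C) (r : Fin m → ℝ) (hr : r ∈ C)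
    (h1 : ∑ i, r i = 1) :
    ∃ C' : Set (Fin m → ℝ), IsOpenCone C' ∧ r ∈ C' ∧ ∃ N : ℕ, ∀ (x : Fin m → ℝ) (j : Fin m),
      (N : ℝ) ≤ ∑ i, x i → x ∈ C' → (2 : ℝ) • (x + Pi.single j 1) ∈ C := by
  obtain ⟨ε, hε, hb⟩ := Metric.isOpen_iff.1 hC.1 r hr
  set δ := ε / 2 with hδ
  have hδ0 : 0 < δ := by positivity
  refine ⟨{x | ∃ t : ℝ, 0 < t ∧ t⁻¹ • x ∈ Metric.ball r δ}, ⟨?_, ?_⟩, ⟨1, one_pos, by simpa⟩,
    ⌈(1 + m * δ) / δ⌉₊ + 1, ?_⟩
  · have : {x : Fin m → ℝ | ∃ t : ℝ, 0 < t ∧ t⁻¹ • x ∈ Metric.ball r δ} =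
        ⋃ t ∈ Set.Ioi (0 : ℝ), (fun x : Fin m → ℝ => t⁻¹ • x) ⁻¹' Metric.ball r δ := by
      ext x; simp
    rw [this]
    exact isOpen_biUnion fun t _ => Metric.isOpen_ball.preimage (continuous_const_smul _)
  · rintro s hs x ⟨t, ht, hx⟩
    refine ⟨s * t, mul_pos hs ht, ?_⟩
    rw [smul_smul, show (s * t)⁻¹ * s = t⁻¹ by field_simp]
    exact hx
  · rintro x j hN ⟨t, ht, hx⟩
    have hsum : ∑ i, (t⁻¹ • x) i ≤ 1 + m * δ := by
      rw [← h1]
      have : ∀ i, (t⁻¹ • x) i ≤ r i + δ := fun i => by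
        have a := (dist_pi_lt_iff hδ0).1 hx i
        rw [Real.dist_eq, abs_lt] at a
        linarith
      calc ∑ i, (t⁻¹ • x) i ≤ ∑ i, (r i + δ) := Finset.sum_le_sum fun i _ => this i
        _ = _ := by simp [Finset.sum_add_distrib]
    have hs2 : ∑ i, (t⁻¹ • x) i = t⁻¹ * ∑ i, x i := by simp [Finset.mul_sum]
    have hc := Nat.le_ceil ((1 + m * δ) / δ)
    push_cast at hN
    have hlt : (1 + m * δ) / δ < ∑ i, x i := by linarith
    rw [div_lt_iff₀ hδ0] at hlt
    have hx0 : 0 < ∑ i, x i := by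
      have : (0 : ℝ) ≤ (⌈(1 + m * δ) / δ⌉₊ : ℝ) := Nat.cast_nonneg _
      linarith
    have hti : t⁻¹ < δ := by
      by_contra hc2
      push Not at hc2
      have := mul_le_mul_of_nonneg_right hc2 hx0.le
      nlinarith
    have hy : t⁻¹ • (x + Pi.single j 1) ∈ C := by
      apply hb
      rw [Metric.mem_ball, smul_add]
      have e1 : dist (t⁻¹ • x + t⁻¹ • (Pi.single j 1 : Fin m → ℝ)) (t⁻¹ • x) < δ := by
        rw [dist_eq_norm, add_sub_cancel_left, norm_smul, Pi.norm_single]
        simp [abs_of_pos ht, hti]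
      have e2 := dist_triangle (t⁻¹ • x + t⁻¹ • (Pi.single j 1 : Fin m → ℝ)) (t⁻¹ • x) r
      rw [Metric.mem_ball] at hx
      linarith
    have := hC.2 (2 * t) (by positivity) _ hy
    rwa [smul_smul, show 2 * t * t⁻¹ = 2 by field_simp] at this

lemma ev_log (K L c : ℝ) (hc : 0 < c) : ∀ᶠ R : ℝ in atTop, K * Real.log (R + 2) + L < c * R := by
  have h1 : Tendsto (fun R : ℝ => R + 2) atTop atTop := tendsto_atTop_add_const_right _ _ tendsto_id
  have h2 := (Real.isLittleO_log_id_atTop.comp_tendsto h1).def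
    (show 0 < c / (4 * (|K| + 1)) by positivity)
  filter_upwards [h2, eventually_gt_atTop (2 : ℝ), eventually_gt_atTop (2 * |L| / c)] with R a b d
  simp only [Function.comp, id, Real.norm_eq_abs] at a
  rw [abs_of_pos (show 0 < R + 2 by linarith)] at a
  have e1 : K * Real.log (R + 2) ≤ |K| * |Real.log (R + 2)| := by
    rw [← abs_mul]; exact le_abs_self _
  have e2 : |K| * |Real.log (R + 2)| ≤ (|K| + 1) * (c / (4 * (|K| + 1)) * (R + 2)) :=
    mul_le_mul (by linarith) a (abs_nonneg _) (by positivity)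
  have e3 : (|K| + 1) * (c / (4 * (|K| + 1)) * (R + 2)) = c / 4 * (R + 2) := by
    field_simp
  rw [div_lt_iff₀ hc] at d
  have e4 := le_abs_self L
  nlinarith

lemma tau_ge {m : ℕ} (hm : 2 ≤ m) (C C' : Set (Fin m → ℝ)) (N : ℕ)
    (h : ∀ (x : Fin m → ℝ) (j : Fin m),
      (N : ℝ) ≤ ∑ i, x i → x ∈ C' → (2 : ℝ) • (x + Pi.single j 1) ∈ C) :
    tau ⊤ C' ≤ tau (commutator (FreeGroup (Fin m))) C := by
  refine le_of_forall_lt_imp_le_of_dense fun b0 hb0 => ?_
  obtain ⟨b, hb1, hb2⟩ := EReal.lt_iff_exists_real_btwn.1 hb0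
  obtain ⟨a, ha1, ha2⟩ := EReal.lt_iff_exists_real_btwn.1 hb2
  have hba : b < a := by exact_mod_cast ha1
  refine hb1.le.trans ?_
  have hf := frequently_lt_of_lt_limsup (by isBoundedDefault) ha2
  refine le_limsup_of_frequently_le' ?_
  rw [frequently_atTop]
  intro M
  have hev := (ev_log (4 * m) (4 * |b|) (2 * (a - b)) (by linarith)).and
    ((eventually_gt_atTop (0 : ℝ)).and ((eventually_ge_atTop (N : ℝ)).and
      (eventually_ge_atTop M)))
  obtain ⟨R, hR1, hR2, hR0, hRN, hRM⟩ := (hf.and_eventually hev).exists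
  have hc := Nat.le_ceil R
  have hc2 := Nat.ceil_lt_add_one hR0.le
  set n := ⌈R⌉₊ with hn
  refine ⟨2 * n + 2, by linarith, ?_⟩
  have hb := count_bound hm C C' R hR0 fun w j hw hx => h _ j (by
    have := sum_par w
    rw [hw] at this
    have e : ∑ i, parikh w i = ∑ i, |parikh w i| :=
      Finset.sum_congr rfl fun i _ => (abs_of_nonneg (Nat.cast_nonneg _)).symm
    rw [e, this]; linarith) hx
  rw [← hn] at hb
  set A := cnt ⊤ C' R
  set B := cnt (commutator (FreeGroup (Fin m))) C (2 * n + 2)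
  have hA : A ≠ 0 := by
    intro h0
    rw [h0] at hR1
    simp only [Nat.cast_zero, ENNReal.log_zero] at hR1
    rw [EReal.coe_mul_bot_of_pos (one_div_pos.2 hR0)] at hR1
    exact absurd hR1 (by simp)
  have hB : B ≠ 0 := by
    intro h0
    rw [h0] at hb
    simp at hb
    exact hA hb
  have lg : ∀ k : ℕ, k ≠ 0 → ENNReal.log (k : ENNReal) = (Real.log k : ℝ) := fun k hk => by
    rw [← ENNReal.ofReal_natCast, ENNReal.log_ofReal_of_pos (by positivity)]
  rw [lg A hA, ← EReal.coe_mul, EReal.coe_lt_coe_iff] at hR1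
  rw [lg B hB, ← EReal.coe_mul, EReal.coe_le_coe_iff]
  have hA0 : (0 : ℝ) < A := by positivity
  have hB0 : (0 : ℝ) < B := by positivity
  have hbR : (A : ℝ) ^ 2 ≤ (((n : ℝ) + 1) ^ (2 * m)) ^ 2 * B := by exact_mod_cast hb
  have hl := Real.log_le_log (by positivity) hbR
  rw [Real.log_mul (by positivity) hB0.ne', Real.log_pow, Real.log_pow, Real.log_pow] at hl
  push_cast at hl
  have hl2 : Real.log (n + 1) ≤ Real.log (R + 2) := Real.log_le_log (by positivity) (by linarith)
  rw [one_div, ← div_eq_inv_mul, lt_div_iff₀ hR0] at hR1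
  rw [one_div, ← div_eq_inv_mul, le_div_iff₀ (by positivity)]
  have e1 : (m : ℝ) * Real.log (n + 1) ≤ m * Real.log (R + 2) :=
    mul_le_mul_of_nonneg_left hl2 (Nat.cast_nonneg _)
  have e2 : b * (2 * n + 2 - 2 * R) ≤ |b| * 4 := by
    refine (le_abs_self _).trans ?_
    rw [abs_mul]
    refine mul_le_mul_of_nonneg_left ?_ (abs_nonneg _)
    rw [abs_le]; constructor <;> linarith
  nlinarith

/-- For every `m ≥ 2` and every subgroup `N` of `F_m` containing the commutator subgroup,
`ψ_N = ψ_{F_m}` on the simplex `M_m`. -/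
theorem result (m : ℕ) (hm : 2 ≤ m) (N : Subgroup (FreeGroup (Fin m)))
    (hN : commutator (FreeGroup (Fin m)) ≤ N) (r : Fin m → ℝ) (_hr : ∀ i, 0 ≤ r i)
    (h1 : ∑ i, r i = 1) : psi N r = psi ⊤ r := by
  apply le_antisymm
  · exact iInf₂_mono fun C _ => tau_mono N C
  · refine le_iInf₂ fun C hC => ?_
    obtain ⟨C', hC', hr', K, hK⟩ := small_cone C hC.1 r hC.2 h1
    refine (iInf₂_le C' ⟨hC', hr'⟩).trans ((tau_ge hm C C' K hK).trans ?_)
    unfold tau
    refine limsup_le_limsup ?_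
    filter_upwards [eventually_gt_atTop (0 : ℝ)] with R hR
    refine mul_le_mul_of_nonneg_left ?_ ?_
    · refine ENNReal.log_monotone ?_
      have : cnt (commutator (FreeGroup (Fin m))) C R ≤ cnt N C R :=
        Set.ncard_le_ncard (fun _ hw => ⟨hN hw.1, hw.2⟩) (fin_set N C R)
      exact_mod_cast this
    · exact_mod_cast (one_div_pos.2 hR).le

end Pool.Agent.Results.MP_dc78ae_al.CommEq
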